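import Pool.Agent.TH526.ZL.H
import Pool.Agent.Q170.ZP.Core

/-!
Sets given by equations whose Newton polytopes at several places are boxes: the local criterion for the
intersections with special subvarieties of products of modular curves (helper file).
-/

set_option autoImplicit false

namespace Pool.Agent.Q170.BX

open H294ZP UpperHalfPlane MvPolynomial Pool.Agent.W282.ZP Pool.Agent.TH526.ZL
open Pool.Agent.Q170.ZP (IndExp coreW)

/-- A zero of a polynomial the coefficient of whose monomial `z ^ u` is divisible by `q ^ (e u)`, with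
equality for the corner coefficients, has a coordinate of the order `- e j`. -/
theorem box_unit {Λ : Type} [CommRing Λ] [Algebra Λ ℂ] (V : ValuationSubring ℂ)
    {σ : Type} [Fintype σ] [DecidableEq σ] (G : MvPolynomial σ Λ) (q : ℂ) (hq : q ≠ 0) (e : σ → ℕ)
    (hV : ∀ u ∈ G.support, V.valuation (algebraMap Λ ℂ (G.coeff u)) ≤
      V.valuation q ^ (∑ j, e j * u j))
    (d : σ → ℕ) (hd : ∀ u ∈ G.support, ∀ j, u j ≤ d j)
    (hc : ∀ I : Finset σ, V.valuation (algebraMap Λ ℂ (G.coeff (corner d I))) =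
      V.valuation q ^ (∑ j, e j * corner d I j)) (z : σ → ℂ)
    (hz : aeval z G = 0) : ∃ j, V.valuation (z j) * V.valuation q ^ e j = 1 := by
  classical
  let Gt : MvPolynomial σ ℂ := ∑ u ∈ G.support,
    monomial u (algebraMap Λ ℂ (G.coeff u) * (q ^ (∑ j, e j * u j))⁻¹)
  have hvq : V.valuation q ≠ 0 := (Valuation.ne_zero_iff _).2 hq
  have hco : ∀ u, Gt.coeff u = algebraMap Λ ℂ (G.coeff u) * (q ^ (∑ j, e j * u j))⁻¹ := by
    intro u
    simp only [Gt, coeff_sum, coeff_monomial]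
    rw [Finset.sum_ite_eq' G.support u]
    split_ifs with h
    · rfl
    · rw [notMem_support_iff.1 h, map_zero, zero_mul]
  have hsupp : ∀ u ∈ Gt.support, u ∈ G.support := by
    intro u hu
    rw [mem_support_iff, hco] at hu
    rw [mem_support_iff]
    intro h0
    exact hu (by rw [h0, map_zero, zero_mul])
  have hvco : ∀ u, V.valuation (Gt.coeff u) * V.valuation q ^ (∑ j, e j * u j) =
      V.valuation (algebraMap Λ ℂ (G.coeff u)) := by
    intro u
    rw [hco, map_mul, map_inv₀, map_pow, mul_assoc, inv_mul_cancel₀ (pow_ne_zero _ hvq), mul_one]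
  have hev : aeval (fun j => q ^ e j * z j) Gt = 0 := by
    rw [← hz]
    simp only [Gt, map_sum, aeval_monomial]
    rw [aeval_def, eval₂_eq']
    refine Finset.sum_congr rfl fun u _ => ?_
    have h1 : (u.prod fun i k => (q ^ e i * z i) ^ k) =
        q ^ (∑ j, e j * u j) * ∏ i, z i ^ u i := by
      rw [Finsupp.prod_fintype _ _ fun i => pow_zero _]
      simp only [mul_pow, ← pow_mul]
      rw [Finset.prod_mul_distrib, Finset.prod_pow_eq_pow_sum]
    rw [h1, Algebra.algebraMap_self, RingHom.id_apply]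
    have h2 : q ^ (∑ j, e j * u j) ≠ 0 := pow_ne_zero _ hq
    field_simp
  obtain ⟨j, hj⟩ := corner_unit (Λ := ℂ) V Gt (fun u hu => by
      rw [Algebra.algebraMap_self, RingHom.id_apply]
      have h1 := hV u (hsupp u hu)
      rw [← hvco u] at h1
      exact le_of_mul_le_mul_right (by rwa [one_mul]) (zero_lt_iff.2 (pow_ne_zero _ hvq))) d
    (fun u hu => hd u (hsupp u hu)) (fun I => by
      rw [Algebra.algebraMap_self, RingHom.id_apply]
      have h1 := hc I
      rw [← hvco] at h1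
      exact mul_right_cancel₀ (pow_ne_zero _ hvq) (h1.trans (one_mul _).symm)) _ hev
  refine ⟨j, ?_⟩
  rw [mul_comm, ← map_pow, ← map_mul]
  exact hj

/-- The local criterion for sets given by equations, for points. -/
theorem criterionB {Λ : Type} [CommRing Λ] [IsDomain Λ] [Algebra Λ ℂ]
    (hinj : Function.Injective (algebraMap Λ ℂ)) {n m T L : ℕ} (hL : m + 2 ≤ L)
    (R : Fin n → Polynomial (Polynomial Λ)) (hR : ∀ i, (R i).Monic)
    (hT : ∀ i u w, ((R i).coeff u).coeff w ≠ 0 → u ≤ T ∧ w ≤ T)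
    (𝔭 : Fin L → Ideal Λ) (h𝔭 : ∀ l, (𝔭 l).IsPrime)
    (G : ∀ J : Finset (Fin n), MvPolynomial J Λ) (d : ∀ J : Finset (Fin n), J → ℕ)
    (hd : ∀ J : Finset (Fin n), J.card = m + 1 → ∀ u ∈ (G J).support, ∀ j, u j ≤ d J j)
    (hRu : ∀ l i u w, ((R i).coeff u).coeff w ≠ 0 → ((R i).coeff u).coeff w ∉ 𝔭 l)
    (π : Fin L → Λ) (hπ : ∀ l, π l ∈ 𝔭 l) (hπ0 : ∀ l, π l ≠ 0)
    (e : Fin L → Fin n → ℕ) (he : IndExp T e)
    (hG : ∀ l (J : Finset (Fin n)), J.card = m + 1 → ∀ u ∈ (G J).support, ∃ a b : Λ, a ∉ 𝔭 l ∧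
      a * (G J).coeff u = b * π l ^ (∑ j : J, e l j * u j))
    (hcor : ∀ l (J : Finset (Fin n)), J.card = m + 1 → ∀ I : Finset J, ∃ a b : Λ, a ∉ 𝔭 l ∧
      b ∉ 𝔭 l ∧ a * (G J).coeff (corner (d J) I) =
        b * π l ^ (∑ j : J, e l j * corner (d J) I j))
    {r : ℕ} (cls : Fin n → Option (Fin r)) (δ : Fin n → ℕ) (x s : Fin n → ℂ)
    (hδ : ∀ i, 0 < δ i)
    (hconst : ∀ i, cls i = none → IsIntegral Λ (x i))
    (hrel : ∀ i j l, cls i = some l → cls j = some l →
        IsIntegral (Algebra.adjoin ℤ {x i}) (x j) ∧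
        Polynomial.eval₂ (Polynomial.aeval (x i) : Polynomial ℂ →ₐ[ℂ] ℂ).toRingHom (x j)
          (W282.ZP.Psi (δ i * δ j)) = 0)
    (hRs : ∀ i, Polynomial.eval₂ (Polynomial.aeval (x i) : Polynomial Λ →ₐ[Λ] ℂ).toRingHom (s i)
      (R i) = 0)
    (hGz : ∀ J : Finset (Fin n), J.card = m + 1 → aeval (fun j : J => s j) (G J) = 0)
    (S : Finset (Fin n)) (hS : AlgebraicIndependent Λ (fun i : S => x i)) :
    S.card + n ≤ r + m := by
  classical
  choose V hV1 hV2 hVx using fun l => exists_place (𝔭 l) _ hS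
  have hunit : ∀ l (a : Λ), a ∉ 𝔭 l → (V l).valuation (algebraMap Λ ℂ a) = 1 := by
    intro l a ha
    refine le_antisymm (hV1 l a) ?_
    by_contra h
    push Not at h
    exact ha ((hV2 l a).1 h)
  have hq0 : ∀ l, algebraMap Λ ℂ (π l) ≠ 0 := fun l h0 => hπ0 l (hinj (h0.trans (map_zero _).symm))
  refine coreW (m := m) hL R hR hT e he cls δ x s hδ (fun i hi => (hconst i hi).isAlgebraic) hrel
    hRs S hS V (fun l => (V l).valuation (algebraMap Λ ℂ (π l)))
    (fun l => (hV2 l (π l)).2 (hπ l))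
    (fun l i hi => mem_of_int (V l) (hV1 l) (hconst i hi))
    (fun l i u w h0 => hunit l _ (hRu l i u w h0)) hVx ?_
  intro l
  refine ⟨Finset.univ.filter fun i => ¬ (V l).valuation (s i) *
    (V l).valuation (algebraMap Λ ℂ (π l)) ^ e l i = 1, ?_, ?_⟩
  · by_contra h
    push Not at h
    obtain ⟨J, hJE, hJc⟩ := Finset.exists_subset_card_eq (Nat.succ_le_of_lt h)
    obtain ⟨j, hj⟩ := box_unit (V l) (G J) (algebraMap Λ ℂ (π l)) (hq0 l) (fun j => e l j)
      (fun u hu => by
        obtain ⟨a, b, ha, hab⟩ := hG l J hJc u hu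
        have h1 := congrArg (fun z => (V l).valuation (algebraMap Λ ℂ z)) hab
        simp only [map_mul, map_pow, hunit l a ha, one_mul] at h1
        rw [h1]
        exact mul_le_of_le_one_left' (hV1 l b)) (d J) (hd J hJc)
      (fun I => by
        obtain ⟨a, b, ha, hb, hab⟩ := hcor l J hJc I
        have h1 := congrArg (fun z => (V l).valuation (algebraMap Λ ℂ z)) hab
        simp only [map_mul, map_pow, hunit l a ha, hunit l b hb, one_mul] at h1
        exact h1) _ (hGz J hJc)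
    exact (Finset.mem_filter.1 (hJE j.2)).2 hj
  · intro i hi
    by_contra h
    exact hi (Finset.mem_filter.2 ⟨Finset.mem_univ _, h⟩)

end Pool.Agent.Q170.BX
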