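import Pool.Agent.Q170.BX.Crit
import Pool.Agent.Q170.ZP.MultiFam

/-!
Families with several parameters of sets given by equations: the members with integral parameters
(helper file).
-/

set_option autoImplicit false

namespace Pool.Agent.Q170.BX

open H294ZP UpperHalfPlane MvPolynomial Pool.Agent.W282.ZP Pool.Agent.Y152.BD Pool.Agent.TH526.ZL
open Pool.Agent.W466.ZC (aeval_mem)
open Pool.Agent.Q170.ZP (IndExp coreW)
open Pool.Agent.Y152.RP.Fam (SpecialVariety SpecialVariety.locus NoAtypical valueAt rel_of_locus)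
open Pool.Agent.Q170.ZP.Multi (evM evM_apply evM_int flat aeval_flat ipol aeval_ipol certP
  v_int_one v_int_lt aeval_int)

/-- A polynomial in the parameters which has no zero on `D = 0`, `E ≠ 0` is a unit at the places which are
near to `D = 0`. -/
theorem unitP {K : Type} [Field K] [Algebra K ℂ] {k : Type} [Field k] [Algebra k ℂ] [Algebra K k]
    [IsScalarTower K k ℂ] [IsAlgClosed k] {r : ℕ} (D E : MvPolynomial (Fin r) ℤ)
    (b : MvPolynomial (Fin r) K)
    (hb : ∀ t : Fin r → ℂ, aeval t D = 0 → aeval t E ≠ 0 → evM K t b ≠ 0) :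
    ∃ W : Set k, W.Finite ∧ ∀ V : ValuationSubring ℂ, (∀ z ∈ W, algebraMap k ℂ z ∈ V) →
      ∀ t : Fin r → ℂ, (∀ j, t j ∈ V) → V.valuation (aeval t D) < 1 →
        V.valuation (aeval t E) = 1 → V.valuation (evM K t b) = 1 := by
  classical
  obtain ⟨M', U, hU⟩ := certP (k := k) (fun a : Empty => (a.elim : MvPolynomial (Fin r ⊕ Empty) k))
      (fun a : Bool => bif a then (ipol k D : MvPolynomial (Fin r ⊕ Empty) k) else
        flat k (C b)) (ipol k E) (by
        intro z _ hF
        obtain ⟨t, y, rfl⟩ : ∃ t y, z = Sum.elim t y :=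
          ⟨fun a => z (Sum.inl a), fun a => z (Sum.inr a), by
            funext a
            rcases a with a | a <;> rfl⟩
        rw [aeval_ipol]
        by_contra hE
        have hD : aeval t D = 0 := by
          have h1 := hF true
          simp only [cond_true] at h1
          rwa [aeval_ipol] at h1
        have h2 := hF false
        simp only [cond_false] at h2
        rw [aeval_flat, eval₂_C] at h2
        exact hb t hD hE h2)
  refine ⟨(coefsP (U true) ∪ coefsP (U false)) ∪
    coefsP (flat k (C b : MvPolynomial Empty (MvPolynomial (Fin r) K))),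
    ((coefsP_finite _).union (coefsP_finite _)).union (coefsP_finite _), ?_⟩
  intro V hV t htV hDl hEl
  have hmem : ∀ j : Fin r ⊕ Empty, Sum.elim t (fun a : Empty => (a.elim : ℂ)) j ∈ V := by
    intro j
    rcases j with j | j
    · exact htV j
    · exact j.elim
  have hle : V.valuation (evM K t b) ≤ 1 := by
    have h1 : evM K t b = aeval (Sum.elim t (fun a : Empty => (a.elim : ℂ)))
        (flat k (C b : MvPolynomial Empty (MvPolynomial (Fin r) K))) := by
      rw [aeval_flat, eval₂_C]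
    rw [h1]
    exact (ValuationSubring.valuation_le_one_iff _ _).2 (aeval_mem V _ (fun u hu =>
      hV _ (Or.inr ⟨u, hu, rfl⟩)) hmem)
  refine le_antisymm hle ?_
  by_contra hlt
  push Not at hlt
  have h1 := hU (Sum.elim t (fun a : Empty => (a.elim : ℂ))) (fun a => a.elim)
  rw [Fintype.sum_bool, aeval_ipol] at h1
  simp only [cond_true, cond_false] at h1
  rw [aeval_ipol, aeval_flat, eval₂_C] at h1
  have hUm : ∀ a, V.valuation (aeval (Sum.elim t (fun a : Empty => (a.elim : ℂ))) (U a)) ≤ 1 := by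
    intro a
    refine (ValuationSubring.valuation_le_one_iff _ _).2 (aeval_mem V _ (fun u hu =>
      hV _ (Or.inl ?_)) hmem)
    cases a
    · exact Or.inr ⟨u, hu, rfl⟩
    · exact Or.inl ⟨u, hu, rfl⟩
  have h2 : V.valuation (aeval t E ^ M') < 1 := by
    rw [h1]
    refine Valuation.map_add_lt _ ?_ ?_
    · rw [map_mul]
      exact (mul_le_of_le_one_left' (hUm true)).trans_lt hDl
    · rw [map_mul]
      exact (mul_le_of_le_one_left' (hUm false)).trans_lt hlt
  rw [map_pow, hEl, one_pow] at h2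
  exact lt_irrefl _ h2

/-- A polynomial in the parameters is integral at almost all places. -/
theorem intP {K : Type} [Field K] [Algebra K ℂ] {k : Type} [Field k] [Algebra k ℂ] [Algebra K k]
    [IsScalarTower K k ℂ] {r : ℕ} (b : MvPolynomial (Fin r) K) :
    ∃ W : Set k, W.Finite ∧ ∀ V : ValuationSubring ℂ, (∀ z ∈ W, algebraMap k ℂ z ∈ V) →
      ∀ t : Fin r → ℂ, (∀ j, t j ∈ V) → V.valuation (evM K t b) ≤ 1 := by
  classical
  refine ⟨coefsP (flat k (C b : MvPolynomial Empty (MvPolynomial (Fin r) K))), coefsP_finite _, ?_⟩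
  intro V hV t htV
  have hmem : ∀ j : Fin r ⊕ Empty, Sum.elim t (fun a : Empty => (a.elim : ℂ)) j ∈ V := by
    intro j
    rcases j with j | j
    · exact htV j
    · exact j.elim
  have h1 : evM K t b = aeval (Sum.elim t (fun a : Empty => (a.elim : ℂ)))
      (flat k (C b : MvPolynomial Empty (MvPolynomial (Fin r) K))) := by
    rw [aeval_flat, eval₂_C]
  rw [h1]
  exact (ValuationSubring.valuation_le_one_iff _ _).2 (aeval_mem V _ (fun u hu =>
    hV _ ⟨u, hu, rfl⟩) hmem)

/-- The points of `Y(1)^n` over which there are values `s_j` with `R_j (s_j, x_j) = 0` which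
satisfy the equations `G_J (s_j, j ∈ J) = 0` for all sets `J` of `m + 1` coordinates. -/
def given {A : Type} [CommRing A] (φ : A →+* ℂ) {K : Subfield ℂ} {n : ℕ} (m : ℕ)
    (R : Fin n → Polynomial (Polynomial K)) (G : ∀ J : Finset (Fin n), MvPolynomial J A) :
    Set (Fin n → ℂ) :=
  {x | ∃ s : Fin n → ℂ, (∀ i, valueAt (R i) (s i) (x i) = 0) ∧
    ∀ J : Finset (Fin n), J.card = m + 1 → eval₂ φ (fun j : J => s j) (G J) = 0}

/-- From points to closed sets. -/
theorem noAtypical_pt {Λ : Type} [CommRing Λ] (f : Λ →+* ℂ) (K : Subfield ℂ) [Countable K]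
    {n m : ℕ} (X : Set (Fin n → ℂ))
    (h : ∀ (r : ℕ) (Z : SpecialVariety f n r), ∀ x ∈ X ∩ Z.locus, ∀ S : Finset (Fin n),
      AlgebraicIndependent K (fun i : S => x i) → S.card + n ≤ r + m) :
    NoAtypical f K m X := by
  intro r Z
  refine ⟨?_, h r Z⟩
  intro A' hA' hcl' hprime
  obtain ⟨x, hxW, T', hT', hdim⟩ := Pool.Agent.W466.ZC.generic_dim K A' hprime hcl'
  have h2 := h r Z x (hA' hxW) T' hT'
  calc zdim A' + (n : Cardinal) ≤ (T'.card : Cardinal) + (n : Cardinal) := by gcongr
    _ = ((T'.card + n : ℕ) : Cardinal) := by push_cast; rfl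
    _ ≤ ((r + m : ℕ) : Cardinal) := by exact_mod_cast h2
    _ = (r : Cardinal) + (m : Cardinal) := by push_cast; rfl

/-- Families with several parameters given by equations which degenerate along hypersurfaces: the
members with integral parameters which are near to all these hypersurfaces at suitable primes. -/
theorem multiB (K : Subfield ℂ) [Countable K] (r n m T : ℕ)
    (R : Fin n → Polynomial (Polynomial K)) (hR : ∀ i, (R i).Monic)
    (hT : ∀ i u w, ((R i).coeff u).coeff w ≠ 0 → u ≤ T ∧ w ≤ T)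
    (G : ∀ J : Finset (Fin n), MvPolynomial J (MvPolynomial (Fin r) K))
    (d : ∀ J : Finset (Fin n), J → ℕ)
    (hd : ∀ J : Finset (Fin n), J.card = m + 1 → ∀ u ∈ (G J).support, ∀ j, u j ≤ d J j)
    (D E : Fin (m + 2) → MvPolynomial (Fin r) ℤ) (e : Fin (m + 2) → Fin n → ℕ)
    (hind : IndExp T e)
    (hG : ∀ l (J : Finset (Fin n)), J.card = m + 1 → ∀ u : J →₀ ℕ,
      MvPolynomial.map (Int.castRingHom K) (D l) ^ (∑ j : J, e l j * u j) ∣ (G J).coeff u)
    (hcor : ∀ l (J : Finset (Fin n)), J.card = m + 1 → ∀ I : Finset J,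
      ∃ b : MvPolynomial (Fin r) K, (G J).coeff (corner (d J) I) =
        MvPolynomial.map (Int.castRingHom K) (D l) ^ (∑ j : J, e l j * corner (d J) I j) * b ∧
      ∀ t : Fin r → ℂ, aeval t (D l) = 0 → aeval t (E l) ≠ 0 → aeval t b ≠ 0)
    (Γ : Finset ℂ) (hΓ : ∀ γ ∈ Γ, γ ∈ K) :
    ∃ Q : ℕ, ∀ t : Fin r → ℤ,
      (∀ l, eval t (D l) ≠ 0 ∧ ∃ p : ℕ, p.Prime ∧ Q < p ∧ (p : ℤ) ∣ eval t (D l) ∧
        ¬ (p : ℤ) ∣ eval t (E l)) →
      NoAtypical (algebraMap (Algebra.adjoin ℤ (Γ : Set ℂ)) ℂ) K m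
        (given (evM K fun j => (t j : ℂ)) m R G) := by
  classical
  let k := algebraicClosure K ℂ
  have hcl : IsAlgClosure K k := inferInstance
  have hac : IsAlgClosed k := hcl.isAlgClosed
  let φ : Polynomial K →+* Polynomial k := Polynomial.mapRingHom (algebraMap K k)
  let Γ' : Set k := (fun γ : Γ => algebraMap K k ⟨γ, hΓ γ γ.2⟩) '' Set.univ
  have hΓ' : algebraMap k ℂ '' Γ' = (Γ : Set ℂ) := by
    ext z
    constructor
    · rintro ⟨_, ⟨g, -, rfl⟩, rfl⟩
      exact g.2
    · intro hz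
      exact ⟨_, ⟨⟨z, hz⟩, trivial, rfl⟩, rfl⟩
  choose q hq using hG
  choose b hb1 hb2 using hcor
  -- the finite sets of coefficients
  have h1 := fun (l : Fin (m + 2)) (J : {J : Finset (Fin n) // J.card = m + 1})
    (u : (G J.1).support) => intP (k := k) (q l J.1 J.2 u)
  choose Wi hWi hi using h1
  have h2 := fun (l : Fin (m + 2)) (J : {J : Finset (Fin n) // J.card = m + 1})
    (I : Finset J.1) => unitP (k := k) (D l) (E l) (b l J.1 J.2 I) (hb2 l J.1 J.2 I)
  choose Wu hWu hu using h2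
  let W1 : Set k := ⋃ i, ⋃ u ∈ (((R i).map φ).support : Set ℕ), coefs1 (((R i).map φ).coeff u)
  have hW1 : W1.Finite := Set.finite_iUnion fun i =>
      ((R i).map φ).support.finite_toSet.biUnion fun u _ => coefs1_finite _
  let W : Set k := (⋃ l, ⋃ J, ⋃ u, Wi l J u) ∪ ((⋃ l, ⋃ J, ⋃ I, Wu l J I) ∪
    (W1 ∪ ((fun z => z⁻¹) '' W1 ∪ Γ')))
  have hW : W.Finite := (Set.finite_iUnion fun l => Set.finite_iUnion fun J =>
    Set.finite_iUnion fun u => hWi l J u).union ((Set.finite_iUnion fun l =>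
    Set.finite_iUnion fun J => Set.finite_iUnion fun I => hWu l J I).union
    (hW1.union ((hW1.image _).union (Set.toFinite _))))
  have hRk : ∀ i, ((R i).map φ).Monic := fun i => (hR i).map _
  have hTk : ∀ i u w, (((R i).map φ).coeff u).coeff w ≠ 0 → u ≤ T ∧ w ≤ T := by
    intro i u w h0
    rw [Polynomial.coeff_map] at h0
    change ((Polynomial.mapRingHom (algebraMap K k)) ((R i).coeff u)).coeff w ≠ 0 at h0
    rw [Polynomial.coe_mapRingHom, Polynomial.coeff_map] at h0
    exact hT i u w fun h1 => h0 (by rw [h1, map_zero])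
  have := hW.to_subtype
  obtain ⟨Q, hQ⟩ := Pool.Agent.W466.ZC.exists_val' (fun z : W => (z : k))
  refine ⟨Q, fun t ht => noAtypical_pt _ K _ ?_⟩
  obtain ⟨tc, htc⟩ : ∃ tc : Fin r → ℂ, tc = fun j => (t j : ℂ) := ⟨_, rfl⟩
  rw [← htc]
  rintro r' Z x ⟨⟨s, hxs, hxG⟩, hxZ⟩ S hS
  have hevD : ∀ P : MvPolynomial (Fin r) ℤ, aeval tc P = ((eval t P : ℤ) : ℂ) := fun P => by
    rw [htc, aeval_int]
  have hSk : AlgebraicIndependent k (fun i : S => x i) := hS.extendScalars k
  choose hD0 p hp hpQ hpD hpE using ht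
  choose V hV1 hVW hVx using fun l => hQ (p l) (hp l) (hpQ l) _ _ hSk
  have hVp : ∀ l, (V l).valuation ((p l : ℕ) : ℂ) < 1 := fun l => by
    have h1 := hV1 l
    rwa [ValuationSubring.mem_nonunits_iff] at h1
  have hVD : ∀ l, (V l).valuation (aeval tc (D l)) < 1 := fun l => by
    rw [hevD]
    exact v_int_lt (hVp l) (hpD l)
  have hVE : ∀ l, (V l).valuation (aeval tc (E l)) = 1 := fun l => by
    rw [hevD]
    exact v_int_one (hp l) (hVp l) (hpE l)
  have htV : ∀ l j, tc j ∈ V l := fun l j => by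
    rw [htc]
    exact intCast_mem _ _
  have hVW' : ∀ l, ∀ z ∈ W, algebraMap k ℂ z ∈ V l := fun l z hz => hVW l ⟨z, hz⟩
  have hD0' : ∀ l, aeval tc (D l) ≠ 0 := fun l => by
    rw [hevD]
    exact_mod_cast hD0 l
  have h1 : ∀ i, Z.cls i = none →
      IsIntegral (Algebra.adjoin ℤ (algebraMap k ℂ '' Γ')) (x i) := by
    intro i hi
    obtain ⟨z, hz⟩ := hxZ
    rw [hΓ', (hz i).1 hi]
    rcases Z.allowed i with ⟨τ, hτ, hc⟩ | h
    · rw [hc]
      exact (singular_modulus_integral τ hτ).tower_top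
    · exact h
  have h2 : ∀ i, Polynomial.eval₂ (Polynomial.aeval (x i) : Polynomial k →ₐ[k] ℂ).toRingHom
      (s i) ((R i).map φ) = 0 := by
    intro i
    rw [Polynomial.eval₂_map]
    have h1 : ((Polynomial.aeval (x i) : Polynomial k →ₐ[k] ℂ).toRingHom).comp φ =
        (Polynomial.aeval (x i) : Polynomial K →ₐ[K] ℂ).toRingHom := by
      ext z
      · simp [φ]
      · simp [φ]
    rw [h1]
    exact hxs i
  refine coreW (m := m) (T := T) le_rfl (fun i => (R i).map φ) hRk hTk e hind
    Z.cls (fun i => (Z.mat i).det.toNat) x s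
    (fun i => by
      have := Z.det_pos i
      omega)
    (fun i hi => alg_of_int Γ' (h1 i hi)) ?_
    h2 S hSk V
    (fun l => (V l).valuation (aeval tc (D l))) hVD
    (fun l i hi => v_le_of_int Γ' (V l) (fun z hz => hVW' l z
      (Or.inr (Or.inr (Or.inr (Or.inr hz))))) (h1 i hi))
    (fun l i u w h0 => ?_) hVx
    (fun l => ?_)
  · intro i j l hi hj
    have h5 := rel_of_locus Z hxZ i j l hi hj
    rw [Int.toNat_mul (Z.det_pos i).le (Z.det_pos j).le] at h5
    exact h5
  · refine v_unit (V l) (W := W1) (fun z hz => hVW' l z (Or.inr (Or.inr (Or.inl hz))))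
      (fun z hz => hVW' l _ (Or.inr (Or.inr (Or.inr (Or.inl ⟨z, hz, rfl⟩)))))
      (Set.mem_iUnion.2 ⟨i, ?_⟩) h0
    refine Set.mem_biUnion (x := u) ?_ ⟨w, Polynomial.mem_support_iff.2 h0, rfl⟩
    rw [Finset.mem_coe, Polynomial.mem_support_iff]
    intro h1
    rw [h1, Polynomial.coeff_zero] at h0
    exact h0 rfl
  · refine ⟨Finset.univ.filter fun i => ¬ (V l).valuation (s i) *
      (V l).valuation (aeval tc (D l)) ^ e l i = 1, ?_, ?_⟩
    · by_contra h
      push Not at h
      obtain ⟨J, hJE, hJc⟩ := Finset.exists_subset_card_eq (Nat.succ_le_of_lt h)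
      -- the polynomial with complex coefficients
      have hco : ∀ u, (MvPolynomial.map (evM K tc) (G J)).coeff u = evM K tc ((G J).coeff u) :=
        fun u => coeff_map _ _ _
      have hsupp : ∀ u ∈ (MvPolynomial.map (evM K tc) (G J)).support, u ∈ (G J).support := by
        intro u hu
        exact support_map_subset _ _ hu
      obtain ⟨j, hj⟩ := box_unit (Λ := ℂ) (V l) (MvPolynomial.map (evM K tc) (G J))
        (aeval tc (D l)) (hD0' l) (fun j => e l j)
        (fun u hu' => by
          have hu1 := hsupp u hu'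
          rw [Algebra.algebraMap_self, RingHom.id_apply, hco, hq l J hJc u, map_mul, map_pow,
            evM_int, map_mul, map_pow]
          refine mul_le_of_le_one_right' ?_
          exact hi l ⟨J, hJc⟩ ⟨u, hu1⟩ (V l) (fun z hz => hVW' l z (Or.inl
            (Set.mem_iUnion.2 ⟨l, Set.mem_iUnion.2 ⟨⟨J, hJc⟩, Set.mem_iUnion.2 ⟨⟨u, hu1⟩, hz⟩⟩⟩)))
            tc (htV l))
        (d J) (fun u hu' => hd J hJc u (hsupp u hu'))
        (fun I => by
          rw [Algebra.algebraMap_self, RingHom.id_apply, hco, hb1 l J hJc I, map_mul, map_pow,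
            evM_int, map_mul, map_pow]
          rw [hu l ⟨J, hJc⟩ I (V l) (fun z hz => hVW' l z (Or.inr (Or.inl
            (Set.mem_iUnion.2 ⟨l, Set.mem_iUnion.2 ⟨⟨J, hJc⟩, Set.mem_iUnion.2 ⟨I, hz⟩⟩⟩))))
            tc (htV l) (hVD l) (hVE l), mul_one]) (fun j => s j) (by
          rw [aeval_def, eval₂_map, Algebra.algebraMap_self, RingHom.id_comp]
          exact hxG J hJc)
      exact (Finset.mem_filter.1 (hJE j.2)).2 hj
    · intro i hi
      by_contra h
      exact hi (Finset.mem_filter.2 ⟨Finset.mem_univ _, h⟩)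

end Pool.Agent.Q170.BX
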