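import Pool.Agent.Q170.RG.FG
import Pool.Agent.Q170.BX.Multi

/-!
Families with one parameter of sets given by equations: the members with parameters in finitely
generated fields and rings, and with transcendental parameters (helper file; the proof is that of
`Pool.Agent.Q170.RG.fgMR` with the criterion `Pool.Agent.Q170.BX.criterionB`).
-/

set_option autoImplicit false

namespace Pool.Agent.Q170.BX

open H294ZP UpperHalfPlane MvPolynomial Pool.Agent.W282.ZP Pool.Agent.Y910.Z
open Pool.Agent.TH526.ZL (spec corner)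
open Pool.Agent.Q170.ZP (IndExp)
open Pool.Agent.Q170.RG (order int_up)
open Pool.Agent.Y152.RP.Fam (SpecialVariety SpecialVariety.locus NoAtypical evalAt valueAt
  rel_of_locus)

/-- The Newton polytopes of the equations at `t = α` are boxes: the order at `α` of the coefficient of
the monomial `∏ s_j ^ u_j` is at least `∑ e_j u_j`, with equality for the corner coefficients. -/
def BoxAt {K : Subfield ℂ} {n : ℕ} (m : ℕ) (G : ∀ J : Finset (Fin n), MvPolynomial J (Polynomial K))
    (d : ∀ J : Finset (Fin n), J → ℕ) (e : Fin n → ℕ) (α : ℂ) : Prop :=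
  ∀ J : Finset (Fin n), J.card = m + 1 →
    (∀ u ∈ (G J).support, ∑ j : J, e j * u j ≤ order ((G J).coeff u) α) ∧
    ∀ I : Finset J, (G J).coeff (corner (d J) I) ≠ 0 ∧
      order ((G J).coeff (corner (d J) I)) α = ∑ j : J, e j * corner (d J) I j

/-- The members with parameters in finitely generated fields and rings. -/
theorem fgB (K : Subfield ℂ) [Countable K] (n m M T : ℕ)
    (R : Fin n → Polynomial (Polynomial K)) (hR : ∀ i, (R i).Monic)
    (hT : ∀ i u w, ((R i).coeff u).coeff w ≠ 0 → u ≤ T ∧ w ≤ T)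
    (G : ∀ J : Finset (Fin n), MvPolynomial J (Polynomial K))
    (d : ∀ J : Finset (Fin n), J → ℕ)
    (hd : ∀ J : Finset (Fin n), J.card = m + 1 → ∀ u ∈ (G J).support, ∀ j, u j ≤ d J j)
    (D : Fin M → Finset ℂ) (hD : ∀ l, ∀ α ∈ D l, IsAlgebraic K α)
    (e : ℂ → Fin n → ℕ)
    (hind : ∀ (f : Fin (m + 2) → Fin M) (α : Fin (m + 2) → ℂ), Function.Injective f →
      (∀ l, α l ∈ D (f l)) → IndExp T fun l i => e (α l) i)
    (hbox : ∀ l, ∀ α ∈ D l, BoxAt m G d (e α) α)
    (Γ : Finset ℂ) (hΓ : ∀ γ ∈ Γ, IsAlgebraic K γ) (F : Finset ℂ)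
    (hF : ∀ z ∈ F, IsAlgebraic K z) :
    ((∀ I : Finset (Fin M), M ≤ I.card + (m + 1) → 3 ≤ (I.biUnion D).card) →
      {t : ℂ | t ∈ Subfield.closure (F : Set ℂ) ∧
        ¬ NoAtypical (algebraMap (Algebra.adjoin ℤ (Γ : Set ℂ)) ℂ) K m
          (given (evalAt K t) m R G)}.Finite) ∧
    ((∀ I : Finset (Fin M), M ≤ I.card + (m + 1) → 2 ≤ (I.biUnion D).card) →
      {t : ℂ | t ∈ Subring.closure (F : Set ℂ) ∧
        ¬ NoAtypical (algebraMap (Algebra.adjoin ℤ (Γ : Set ℂ)) ℂ) K m
          (given (evalAt K t) m R G)}.Finite) := by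
  classical
  let kk := algebraicClosure K ℂ
  have hcl : IsAlgClosure K kk := inferInstance
  have hac : IsAlgClosed kk := hcl.isAlgClosed
  have hc0k : CharZero kk := inferInstance
  let φ : Polynomial K →+* Polynomial kk := Polynomial.mapRingHom (algebraMap K kk)
  have hev : ∀ (t : kk), (algebraMap kk ℂ).comp ((Polynomial.evalRingHom t).comp φ) =
      evalAt K (algebraMap kk ℂ t) := by
    intro t
    refine Polynomial.ringHom_ext (fun a => ?_) ?_
    · simp only [φ, evalAt, RingHom.comp_apply, Polynomial.coe_mapRingHom, Polynomial.map_C,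
        Polynomial.coe_evalRingHom, Polynomial.eval_C, AlgHom.toRingHom_eq_coe, RingHom.coe_coe,
        Polynomial.aeval_C]
      rfl
    · simp only [φ, evalAt, RingHom.comp_apply, Polynomial.coe_mapRingHom, Polynomial.map_X,
        Polynomial.coe_evalRingHom, Polynomial.eval_X, AlgHom.toRingHom_eq_coe, RingHom.coe_coe,
        Polynomial.aeval_X]
  have hmult : ∀ (α : kk) (c : Polynomial K), (φ c).rootMultiplicity α =
      order c (algebraMap kk ℂ α) := by
    intro α c
    have h1 := Polynomial.eq_rootMultiplicity_map (p := φ c) (f := algebraMap kk ℂ)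
      (algebraMap kk ℂ).injective α
    rw [h1]
    simp only [φ, order, Polynomial.coe_mapRingHom, Polynomial.map_map]
    rfl
  -- finite sets of algebraic numbers
  have hlift : ∀ S : Finset ℂ, (∀ z ∈ S, IsAlgebraic K z) → ∃ S' : Finset kk,
      (∀ z : kk, z ∈ S' ↔ algebraMap kk ℂ z ∈ S) ∧
      algebraMap kk ℂ '' (S' : Set kk) = (S : Set ℂ) := by
    intro S hS
    have hmem : ∀ z ∈ S, z ∈ algebraicClosure K ℂ := fun z hz =>
      mem_algebraicClosure_iff'.2 (hS z hz).isIntegral
    have h1 : ∀ z : kk, z ∈ (S.attach.image fun z => (⟨z.1, hmem z.1 z.2⟩ : kk)) ↔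
        algebraMap kk ℂ z ∈ S := by
      intro z
      constructor
      · intro hz
        obtain ⟨w, _, hw⟩ := Finset.mem_image.1 hz
        rw [← hw]
        exact w.2
      · intro hz
        exact Finset.mem_image.2 ⟨⟨z.1, hz⟩, Finset.mem_attach _ _, rfl⟩
    refine ⟨S.attach.image fun z => ⟨z.1, hmem z.1 z.2⟩, h1, ?_⟩
    ext z
    constructor
    · rintro ⟨w, hw, rfl⟩
      exact (h1 w).1 hw
    · intro hz
      exact ⟨⟨z, hmem z hz⟩, (h1 _).2 hz, rfl⟩
  obtain ⟨Γf, -, hΓf⟩ := hlift Γ hΓ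
  let Γ' : Set kk := (Γf : Set kk)
  have hΓ' : algebraMap kk ℂ '' Γ' = (Γ : Set ℂ) := hΓf
  obtain ⟨F', -, hF'⟩ := hlift F hF
  choose D' hD' hD'im using fun l => hlift (D l) (hD l)
  have hcard : ∀ I : Finset (Fin M), (I.biUnion D').card = (I.biUnion D).card := by
    intro I
    rw [← Finset.card_image_of_injective (I.biUnion D') (algebraMap kk ℂ).injective]
    congr 1
    ext z
    simp only [Finset.mem_image, Finset.mem_biUnion]
    constructor
    · rintro ⟨w, ⟨l, hl, hw⟩, rfl⟩
      exact ⟨l, hl, (hD' l w).1 hw⟩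
    · rintro ⟨l, hl, hz⟩
      have h1 : z ∈ algebraMap kk ℂ '' (D' l : Set kk) := by
        rw [hD'im]
        exact hz
      obtain ⟨w, hw, hwz⟩ := h1
      exact ⟨w, ⟨l, hl, hw⟩, hwz⟩
  -- the case without degenerate members
  by_cases hne : ∃ l, (D l).Nonempty
  swap
  · have h0 : ((Finset.univ : Finset (Fin M)).biUnion D).card = 0 := by
      rw [Finset.card_eq_zero, Finset.eq_empty_iff_forall_notMem]
      intro z hz
      obtain ⟨l, _, hl⟩ := Finset.mem_biUnion.1 hz
      exact hne ⟨l, z, hl⟩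
    have h1 : M ≤ (Finset.univ : Finset (Fin M)).card + (m + 1) := by
      rw [Finset.card_univ, Fintype.card_fin]
      omega
    refine ⟨fun h => ?_, fun h => ?_⟩
    all_goals
      exfalso
      have := h Finset.univ h1
      omega
  let Rt : Finset kk := Finset.univ.biUnion D'
  have hRt : ∀ α : kk, α ∈ Rt ↔ ∃ l, α ∈ D' l := by
    intro α
    simp only [Rt, Finset.mem_biUnion, Finset.mem_univ, true_and]
  let ρt : Fin Rt.card → kk := fun l => (Rt.equivFin.symm l : kk)
  have hρ : ∀ α ∈ Rt, ∃ l, ρt l = α := by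
    intro α hα
    refine ⟨Rt.equivFin ⟨α, hα⟩, ?_⟩
    simp [ρt]
  have hρ' : ∀ l, ρt l ∈ Rt := fun l => (Rt.equivFin.symm l).2
  -- the coefficients of the equations
  let ι := Σ J : {J : Finset (Fin n) // J.card = m + 1}, (G J.1).support
  let cf : ι → Polynomial K := fun i => (G i.1.1).coeff i.2
  have hcf : ∀ i, cf i ≠ 0 := fun i => mem_support_iff.1 i.2.2
  have hφ : Function.Injective φ := Polynomial.map_injective _ (algebraMap K kk).injective
  have hc0 : ∀ i, φ (cf i) ≠ 0 := fun i => (map_ne_zero_iff φ hφ).2 (hcf i)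
  obtain ⟨W₀, hW₀, hΓW₀, hρW₀, hnear⟩ := nearR (k := kk) (m := 0) (M := Rt.card) (N := 0)
    (κ := Empty) (ι := ι) (fun i => i.elim) (fun _ => 1) (fun _ => 1) (fun i => (R i).map φ)
    (fun i => φ (cf i)) ρt hc0
    (fun l I hI y _ h2 => by
      exfalso
      obtain ⟨i, hi⟩ := Finset.card_pos.1 (by rw [hI]; exact Nat.succ_pos _)
      have h4 := h2 i hi
      rw [spec, map_one, map_one, one_mul] at h4
      exact one_ne_zero h4)
    Γ' (Set.toFinite _)
  let W : Finset kk := hW₀.toFinset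
  have hW : (W : Set kk) = W₀ := Set.Finite.coe_toFinset hW₀
  -- the core
  have core : ∀ (t : kk), t ∉ Rt → (∃ f : Fin (m + 2) → Fin M,
      Function.Injective f ∧ ∀ l, ∃ a ∈ D' (f l), ¬ Bad (W : Set kk) t a) →
      NoAtypical (algebraMap (Algebra.adjoin ℤ (Γ : Set ℂ)) ℂ) K m
        (given (evalAt K (algebraMap kk ℂ t)) m R G) := by
    rintro t htRt ⟨f, hf, hp⟩
    rw [hW] at hp
    choose α hα hbad using hp
    have hαRt : ∀ l, α l ∈ Rt := fun l => (hRt _).2 ⟨_, hα l⟩
    have hαW : ∀ l, α l ∈ W₀ := by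
      intro l
      obtain ⟨l', hl'⟩ := hρ _ (hαRt l)
      rw [← hl']
      exact hρW₀ l'
    have htα : ∀ l, t ≠ α l := by
      intro l h
      exact htRt (h ▸ hαRt l)
    choose 𝔭 h𝔭 hmem𝔭 using fun l => exists_max W₀ (hαW l) (htα l) (hbad l)
    obtain ⟨Λ, hΛ⟩ : ∃ Λ, Λ = Subring.closure (insert t W₀) := ⟨_, rfl⟩
    subst hΛ
    let Λ : Subring kk := Subring.closure (insert t W₀)
    have hWΛ : W₀ ⊆ (Λ : Set kk) := fun z hz => Subring.subset_closure (Set.mem_insert_of_mem _ hz)
    let t' : Λ := ⟨t, Subring.subset_closure (Set.mem_insert _ _)⟩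
    let r' : Fin (m + 2) → Λ := fun l => ⟨α l, hWΛ (hαW l)⟩
    have hmem : ∀ l, t' - r' l ∈ 𝔭 l := fun l => hmem𝔭 l
    obtain ⟨_, _, _, R', c', _, _, _, hR', hc', hunit, hN⟩ := hnear Λ hWΛ
    have hsub : Function.Injective Λ.subtype := Subtype.val_injective
    have hsub1 : Function.Injective (Polynomial.mapRingHom Λ.subtype) :=
      Polynomial.map_injective _ hsub
    let i1 : Algebra Λ ℂ := ((algebraMap kk ℂ).comp Λ.subtype).toAlgebra
    have hmapΛ : ∀ z : Λ, algebraMap Λ ℂ z = algebraMap kk ℂ (z : kk) := fun z => rfl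
    have htower : IsScalarTower Λ kk ℂ := IsScalarTower.of_algebraMap_eq fun z => rfl
    have hinjC : Function.Injective (algebraMap Λ ℂ) := by
      intro a b h
      exact hsub ((algebraMap kk ℂ).injective h)
    have hcval : ∀ i, algebraMap Λ ℂ ((c' i).eval t') = evalAt K (algebraMap kk ℂ t) (cf i) := by
      intro i
      have h1 : (((c' i).eval t' : Λ) : kk) = (φ (cf i)).eval t := by
        rw [← hc' i, Polynomial.eval_map]
        exact (Polynomial.eval₂_at_apply Λ.subtype t').symm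
      rw [hmapΛ, h1, ← hev t]
      rfl
    have hintΓ : ∀ z, (algebraMap (Algebra.adjoin ℤ (Γ : Set ℂ)) ℂ).IsIntegralElem z →
        IsIntegral Λ z := by
      intro z hz
      refine int_up hinjC (Γ : Set ℂ) (fun g hg => ?_) hz
      rw [← hΓ'] at hg
      obtain ⟨g', hg', rfl⟩ := hg
      exact ⟨⟨g', hWΛ (hΓW₀ hg')⟩, rfl⟩
    -- the equations over the ring
    let G' : ∀ J : Finset (Fin n), MvPolynomial J Λ := fun J =>
      if hJ : J.card = m + 1 then ∑ u ∈ (G J).support.attach,
        monomial (u : J →₀ ℕ) ((c' ⟨⟨J, hJ⟩, u⟩).eval t') else 0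
    have hG'co : ∀ (J : Finset (Fin n)) (hJ : J.card = m + 1) (u : (G J).support),
        (G' J).coeff u = (c' ⟨⟨J, hJ⟩, u⟩).eval t' := by
      intro J hJ u
      simp only [G', dif_pos hJ, coeff_sum, coeff_monomial]
      rw [Finset.sum_eq_single u]
      · rw [if_pos rfl]
      · intro v _ hv
        rw [if_neg fun h => hv (Subtype.ext h)]
      · intro h
        exact absurd (Finset.mem_attach _ _) h
    have hG's : ∀ (J : Finset (Fin n)) (hJ : J.card = m + 1), ∀ u ∈ (G' J).support,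
        u ∈ (G J).support := by
      intro J hJ u hu
      by_contra hcon
      apply mem_support_iff.1 hu
      simp only [G', dif_pos hJ, coeff_sum, coeff_monomial]
      refine Finset.sum_eq_zero fun v _ => ?_
      rw [if_neg]
      intro h
      exact hcon (h ▸ v.2)
    have hG'ev : ∀ (J : Finset (Fin n)) (hJ : J.card = m + 1) (s : J → ℂ),
        aeval s (G' J) = eval₂ (evalAt K (algebraMap kk ℂ t)) s (G J) := by
      intro J hJ s
      simp only [G', dif_pos hJ, map_sum, aeval_monomial]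
      rw [eval₂_eq', ← Finset.sum_attach (G J).support]
      refine Finset.sum_congr rfl fun u _ => ?_
      rw [hcval, Finsupp.prod_fintype _ _ fun i => pow_zero _]
    refine noAtypical_pt _ K _ ?_
    rintro r Z x ⟨⟨s, hxs, hxG⟩, hxZ⟩ S hS
    have hSk : AlgebraicIndependent kk (fun i : S => x i) := hS.extendScalars kk
    have hSΛ : AlgebraicIndependent Λ (fun i : S => x i) := hSk.restrictScalars hsub
    have hdiv : ∀ l (J : Finset (Fin n)) (hJ : J.card = m + 1) (u : (G J).support),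
        ∃ b : Λ, b ∉ 𝔭 l ∧ (G' J).coeff u = b * (t' - r' l) ^
          order ((G J).coeff u) (algebraMap kk ℂ (α l)) := by
      intro l J hJ u
      obtain ⟨l', hl'⟩ := hρ _ (hαRt l)
      obtain ⟨b, hb1, hb2⟩ := (hN l' (r' l) t' hl'.symm).2 (𝔭 l) (h𝔭 l) (hmem l) ⟨⟨J, hJ⟩, u⟩
      refine ⟨b, hb1, ?_⟩
      rw [hG'co J hJ u, hb2, hl', hmult]
    refine criterionB (Λ := Λ) hinjC (m := m) (T := T) le_rfl R' ?_ ?_ 𝔭 h𝔭 G' d
      (fun J hJ u hu => hd J hJ u (hG's J hJ u hu)) ?_ (fun l => t' - r' l) hmem ?_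
      (fun l i => e (algebraMap kk ℂ (α l)) i)
      (hind f (fun l => algebraMap kk ℂ (α l)) hf (fun l => (hD' _ _).1 (hα l))) ?_ ?_ Z.cls
      (fun i => (Z.mat i).det.toNat) x s ?_ ?_
      (fun i j l hi hj => by
        have h5 := rel_of_locus Z hxZ i j l hi hj
        rw [Int.toNat_mul (Z.det_pos i).le (Z.det_pos j).le] at h5
        exact h5) ?_ ?_ S hSΛ
    · intro i
      refine Polynomial.monic_of_injective hsub1 ?_
      rw [hR' i]
      exact (hR i).map _
    · intro i u w h0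
      refine hT i u w fun h1 => h0 ?_
      apply hsub
      have h2 := congrArg (fun P => (P.coeff u).coeff w) (hR' i)
      simp only [Polynomial.coeff_map, Polynomial.coe_mapRingHom, φ] at h2
      rw [h2, h1, map_zero, map_zero]
    · intro l i u w h0 h1
      exact (h𝔭 l).ne_top (Ideal.eq_top_of_isUnit_mem _ h1 (hunit i u w h0))
    · intro l h0
      have h1 : t' - r' l = 0 := h0
      exact htα l (congrArg Subtype.val (sub_eq_zero.1 h1))
    · intro l J hJ u hu
      obtain ⟨b, hb1, hb2⟩ := hdiv l J hJ ⟨u, hG's J hJ u hu⟩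
      have h1 := (hbox (f l) _ ((hD' _ _).1 (hα l)) J hJ).1 u (hG's J hJ u hu)
      refine ⟨1, b * (t' - r' l) ^ (order ((G J).coeff u) (algebraMap kk ℂ (α l)) -
        ∑ j : J, e (algebraMap kk ℂ (α l)) j * u j),
        fun h1 => (h𝔭 l).ne_top ((Ideal.eq_top_iff_one _).2 h1), ?_⟩
      rw [one_mul, hb2, mul_assoc, ← pow_add, Nat.sub_add_cancel h1]
    · intro l J hJ I
      obtain ⟨h1, h2⟩ := (hbox (f l) _ ((hD' _ _).1 (hα l)) J hJ).2 I
      obtain ⟨b, hb1, hb2⟩ := hdiv l J hJ ⟨corner (d J) I, mem_support_iff.2 h1⟩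
      refine ⟨1, b, fun h1 => (h𝔭 l).ne_top ((Ideal.eq_top_iff_one _).2 h1), hb1, ?_⟩
      rw [one_mul, hb2, h2]
    · intro i
      have := Z.det_pos i
      omega
    · intro i hi
      obtain ⟨z, hz⟩ := hxZ
      have e3 : x i = Z.const i := (hz i).1 hi
      rw [e3]
      rcases Z.allowed i with ⟨τ, hτ, hc⟩ | h
      · rw [hc]
        exact (singular_modulus_integral τ hτ).tower_top
      · exact hintΓ _ h
    · intro i
      have h1 := hxs i
      rw [valueAt] at h1
      have h2 : (R' i).map (Polynomial.mapRingHom Λ.subtype) = (R i).map φ := hR' i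
      have h3 : ((Polynomial.aeval (x i) : Polynomial kk →ₐ[kk] ℂ).toRingHom).comp φ =
          (Polynomial.aeval (x i) : Polynomial K →ₐ[K] ℂ).toRingHom := by
        ext z
        · simp [φ]
        · simp [φ]
      have h4 : ((Polynomial.aeval (x i) : Polynomial kk →ₐ[kk] ℂ).toRingHom).comp
          (Polynomial.mapRingHom Λ.subtype) =
          (Polynomial.aeval (x i) : Polynomial Λ →ₐ[Λ] ℂ).toRingHom := by
        refine Polynomial.ringHom_ext (fun a => ?_) ?_
        · simp only [RingHom.comp_apply, Polynomial.coe_mapRingHom, Polynomial.map_C,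
            AlgHom.toRingHom_eq_coe, RingHom.coe_coe, Polynomial.aeval_C]
          rfl
        · simp
      rw [← h3, ← Polynomial.eval₂_map, ← h2, Polynomial.eval₂_map, h4] at h1
      exact h1
    · intro J hJ
      rw [hG'ev J hJ]
      exact hxG J hJ
  -- the parameters lie in the algebraic closure
  have hfield : ∀ t ∈ Subfield.closure (F : Set ℂ), ∃ t' : kk,
      t' ∈ Subfield.closure (F' : Set kk) ∧ algebraMap kk ℂ t' = t := by
    intro t ht
    rw [← hF', ← RingHom.map_field_closure] at ht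
    exact Subfield.mem_map.1 ht
  have hring : ∀ t ∈ Subring.closure (F : Set ℂ), ∃ t' : kk,
      t' ∈ Subring.closure (F' : Set kk) ∧ algebraMap kk ℂ t' = t := by
    intro t ht
    rw [← hF', ← RingHom.map_closure] at ht
    exact Subring.mem_map.1 ht
  let E : Set kk := {t | t ∉ Rt ∧ ¬ NoAtypical (algebraMap (Algebra.adjoin ℤ (Γ : Set ℂ)) ℂ) K m
        (given (evalAt K (algebraMap kk ℂ t)) m R G)}
  refine ⟨fun hM => ?_, fun hM => ?_⟩
  · have h1 := finite_field (L := m + 1) W F' D'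
      (fun I hI => (hcard I).symm ▸ hM I hI) E (fun t ht h => ht.2 (core t ht.1 h))
    refine ((h1.union Rt.finite_toSet).image (algebraMap kk ℂ)).subset ?_
    rintro t ⟨ht, ht'⟩
    obtain ⟨t', ht1, rfl⟩ := hfield t ht
    by_cases h2 : t' ∈ Rt
    · exact ⟨t', Or.inr h2, rfl⟩
    · exact ⟨t', Or.inl ⟨ht1, h2, ht'⟩, rfl⟩
  · have h1 := finite_ring (L := m + 1) W F' D'
      (fun I hI => (hcard I).symm ▸ hM I hI) E (fun t ht h => ht.2 (core t ht.1 h))
    refine ((h1.union Rt.finite_toSet).image (algebraMap kk ℂ)).subset ?_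
    rintro t ⟨ht, ht'⟩
    obtain ⟨t', ht1, rfl⟩ := hring t ht
    by_cases h2 : t' ∈ Rt
    · exact ⟨t', Or.inr h2, rfl⟩
    · exact ⟨t', Or.inl ⟨ht1, h2, ht'⟩, rfl⟩

end Pool.Agent.Q170.BX
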