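import Pool.Agent.Q170.BX.FG

/-!
Families with one parameter of sets given by equations: the members with transcendental parameters, and
the local criterion (helper file).
-/

set_option autoImplicit false

namespace Pool.Agent.Q170.BX

open H294ZP UpperHalfPlane MvPolynomial Pool.Agent.W282.ZP
open Pool.Agent.TH526.ZL (corner)
open Pool.Agent.Q170.ZP (IndExp)
open Pool.Agent.Q170.RG (order int_up)
open Pool.Agent.Y152.RP.Fam (SpecialVariety SpecialVariety.locus NoAtypical evalAt valueAt
  rel_of_locus)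

/-- The members with transcendental parameters. -/
theorem transB (K : Subfield ℂ) (n m T : ℕ)
    (R : Fin n → Polynomial (Polynomial K)) (hR : ∀ i, (R i).Monic)
    (hT : ∀ i u w, ((R i).coeff u).coeff w ≠ 0 → u ≤ T ∧ w ≤ T)
    (G : ∀ J : Finset (Fin n), MvPolynomial J (Polynomial K))
    (d : ∀ J : Finset (Fin n), J → ℕ)
    (hd : ∀ J : Finset (Fin n), J.card = m + 1 → ∀ u ∈ (G J).support, ∀ j, u j ≤ d J j)
    (α : Fin (m + 2) → ℂ) (hα : ∀ l, IsAlgebraic K (α l)) (e : Fin (m + 2) → Fin n → ℕ)
    (hind : IndExp T e) (hbox : ∀ l, BoxAt m G d (e l) (α l))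
    (Γ : Finset ℂ) (hΓ : ∀ γ ∈ Γ, IsAlgebraic K γ) (t : ℂ) (ht : Transcendental K t)
    (K' : Subfield ℂ) [Countable K'] (hKK' : K ≤ K') (htK' : t ∈ K') :
    NoAtypical (algebraMap (Algebra.adjoin ℤ (Γ : Set ℂ)) ℂ) K' m
      (given (evalAt K t) m R G) := by
  classical
  let kk := algebraicClosure K ℂ
  have hcl : IsAlgClosure K kk := inferInstance
  have hac : IsAlgClosed kk := hcl.isAlgClosed
  have htk : Transcendental kk t := ht.extendScalars kk
  let φ : Polynomial K →+* Polynomial kk := Polynomial.mapRingHom (algebraMap K kk)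
  have hφ : Function.Injective φ := Polynomial.map_injective _ (algebraMap K kk).injective
  let ev : Polynomial kk →+* ℂ := (Polynomial.aeval t : Polynomial kk →ₐ[kk] ℂ).toRingHom
  let i1 : Algebra (Polynomial kk) ℂ := ev.toAlgebra
  have hinj : Function.Injective (algebraMap (Polynomial kk) ℂ) :=
    transcendental_iff_injective.1 htk
  have hevφ : ∀ c : Polynomial K, algebraMap (Polynomial kk) ℂ (φ c) = evalAt K t c := by
    intro c
    change Polynomial.aeval t ((c.map (algebraMap K kk))) = Polynomial.aeval t c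
    rw [Polynomial.aeval_map_algebraMap]
  have hmem : ∀ z : ℂ, IsAlgebraic K z → ∃ z' : kk, algebraMap kk ℂ z' = z := fun z hz =>
    ⟨⟨z, mem_algebraicClosure_iff'.2 hz.isIntegral⟩, rfl⟩
  choose α' hα' using fun l => hmem (α l) (hα l)
  have hmult : ∀ l (c : Polynomial K), (φ c).rootMultiplicity (α' l) = order c (α l) := by
    intro l c
    have h1 := Polynomial.eq_rootMultiplicity_map (p := φ c) (f := algebraMap kk ℂ)
      (algebraMap kk ℂ).injective (α' l)
    rw [h1, hα']
    simp only [φ, order, Polynomial.coe_mapRingHom, Polynomial.map_map]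
    rfl
  have hintΓ : ∀ z, (algebraMap (Algebra.adjoin ℤ (Γ : Set ℂ)) ℂ).IsIntegralElem z →
      IsIntegral (Polynomial kk) z := by
    intro z hz
    refine int_up hinj (Γ : Set ℂ) (fun g hg => ?_) hz
    obtain ⟨g', hg'⟩ := hmem g (hΓ g hg)
    refine ⟨Polynomial.C g', ?_⟩
    change Polynomial.aeval t (Polynomial.C g') = g
    rw [Polynomial.aeval_C, hg']
  -- the polynomials in the parameter as elements of the closure of `K'`
  let k' := algebraicClosure K' ℂ
  have hev' : ∀ a : Polynomial kk, ev a ∈ k'.toSubfield := by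
    intro a
    change Polynomial.aeval t a ∈ k'.toSubfield
    rw [Polynomial.aeval_eq_sum_range]
    refine sum_mem fun i _ => ?_
    rw [Algebra.smul_def]
    refine mul_mem ?_ (pow_mem ?_ i)
    · have h1 : IsAlgebraic K ((algebraMap kk ℂ) (a.coeff i)) :=
        (Algebra.IsAlgebraic.isAlgebraic (R := K) (a.coeff i)).algebraMap
      let i2 : Algebra K K' := (Subfield.inclusion hKK').toAlgebra
      have hst : IsScalarTower K K' ℂ := IsScalarTower.of_algebraMap_eq fun _ => rfl
      have h2 : IsAlgebraic K' ((algebraMap kk ℂ) (a.coeff i)) := h1.tower_top K'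
      exact mem_algebraicClosure_iff'.2 h2.isIntegral
    · exact mem_algebraicClosure_iff'.2 (isIntegral_algebraMap (R := K') (x := ⟨t, htK'⟩))
  let fΛ : Polynomial kk →+* k' := ev.codRestrict k'.toSubfield hev'
  let i3 : Algebra (Polynomial kk) k' := fΛ.toAlgebra
  have hst3 : IsScalarTower (Polynomial kk) k' ℂ := IsScalarTower.of_algebraMap_eq fun _ => rfl
  have hinj3 : Function.Injective (algebraMap (Polynomial kk) k') := by
    intro a b h
    apply hinj
    exact congrArg (algebraMap k' ℂ) h
  refine noAtypical_pt _ K' _ ?_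
  rintro r Z x ⟨⟨s, hxs, hxG⟩, hxZ⟩ S hS
  have hSk : AlgebraicIndependent k' (fun i : S => x i) := hS.extendScalars k'
  have hSΛ : AlgebraicIndependent (Polynomial kk) (fun i : S => x i) :=
    hSk.restrictScalars hinj3
  have hsupp : ∀ J, ∀ u ∈ (MvPolynomial.map φ (G J)).support, u ∈ (G J).support := fun J u hu =>
    support_map_subset _ _ hu
  let ψ : K →+* Polynomial kk := Polynomial.C.comp (algebraMap K kk)
  have hψ : ∀ a : K, algebraMap (Polynomial kk) ℂ (ψ a) = a := by
    intro a
    change Polynomial.aeval t (Polynomial.C (algebraMap K kk a)) = _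
    rw [Polynomial.aeval_C]
    rfl
  refine criterionB (Λ := Polynomial kk) hinj (m := m) (T := T) le_rfl
    (fun i => (R i).map (Polynomial.mapRingHom ψ)) (fun i => (hR i).map _) ?_
    (fun l => RingHom.ker (Polynomial.evalRingHom (α' l)))
    (fun l => RingHom.ker_isPrime _) (fun J => MvPolynomial.map φ (G J)) d
    (fun J hJ u hu => hd J hJ u (hsupp J u hu)) ?_
    (fun l => Polynomial.X - Polynomial.C (α' l)) ?_ ?_ e hind ?_ ?_ Z.cls
    (fun i => (Z.mat i).det.toNat) x s ?_ ?_
    (fun i j l hi hj => by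
      have h5 := rel_of_locus Z hxZ i j l hi hj
      rw [Int.toNat_mul (Z.det_pos i).le (Z.det_pos j).le] at h5
      exact h5) ?_ ?_ S hSΛ
  · intro i u w h0
    refine hT i u w fun h1 => h0 ?_
    rw [Polynomial.coeff_map, Polynomial.coe_mapRingHom, Polynomial.coeff_map, h1, map_zero]
  · intro l i u w h0 h1
    apply h0
    rw [Polynomial.coeff_map, Polynomial.coe_mapRingHom, Polynomial.coeff_map] at h1 ⊢
    rw [RingHom.mem_ker] at h1
    simp only [ψ, RingHom.comp_apply, Polynomial.coe_evalRingHom, Polynomial.eval_C] at h1 ⊢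
    rw [h1, map_zero]
  · intro l
    rw [RingHom.mem_ker, Polynomial.coe_evalRingHom, Polynomial.eval_sub, Polynomial.eval_X,
      Polynomial.eval_C, sub_self]
  · intro l
    exact Polynomial.X_sub_C_ne_zero _
  · intro l J hJ u hu
    have h1 := (hbox l J hJ).1 u (hsupp J u hu)
    rw [← hmult] at h1
    obtain ⟨b, hb⟩ := (pow_dvd_pow _ h1).trans
      (Polynomial.pow_rootMultiplicity_dvd (φ ((G J).coeff u)) (α' l))
    refine ⟨1, b, fun h2 => ?_, ?_⟩
    · rw [RingHom.mem_ker, map_one] at h2
      exact one_ne_zero h2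
    · rw [one_mul, coeff_map, hb, mul_comm]
  · intro l J hJ I
    obtain ⟨h1, h2⟩ := (hbox l J hJ).2 I
    obtain ⟨b, hb1, hb2⟩ := Polynomial.exists_eq_pow_rootMultiplicity_mul_and_not_dvd
      (φ ((G J).coeff (corner (d J) I))) ((map_ne_zero_iff φ hφ).2 h1) (α' l)
    refine ⟨1, b, fun h3 => ?_, fun h3 => ?_, ?_⟩
    · rw [RingHom.mem_ker, map_one] at h3
      exact one_ne_zero h3
    · apply hb2
      rw [Polynomial.dvd_iff_isRoot]
      exact h3
    · rw [hmult, h2] at hb1
      rw [one_mul, coeff_map, hb1, mul_comm]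
  · intro i
    have := Z.det_pos i
    omega
  · intro i hi
    obtain ⟨z, hz⟩ := hxZ
    have e3 : x i = Z.const i := (hz i).1 hi
    rw [e3]
    rcases Z.allowed i with ⟨τ, hτ, hc⟩ | h
    · rw [hc]
      exact (singular_modulus_integral τ hτ).tower_top
    · exact hintΓ _ h
  · intro i
    have h1 := hxs i
    rw [valueAt] at h1
    have h4 : ((Polynomial.aeval (x i) : Polynomial (Polynomial kk) →ₐ[Polynomial kk] ℂ).toRingHom).comp
        (Polynomial.mapRingHom ψ) =
        (Polynomial.aeval (x i) : Polynomial K →ₐ[K] ℂ).toRingHom := by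
      refine Polynomial.ringHom_ext (fun a => ?_) ?_
      · simp only [RingHom.comp_apply, Polynomial.coe_mapRingHom, Polynomial.map_C,
          AlgHom.toRingHom_eq_coe, RingHom.coe_coe, Polynomial.aeval_C]
        exact hψ a
      · simp
    rw [← h4, ← Polynomial.eval₂_map] at h1
    exact h1
  · intro J hJ
    have h1 := hxG J hJ
    rw [aeval_def, eval₂_map]
    have h2 : (algebraMap (Polynomial kk) ℂ).comp φ = evalAt K t := RingHom.ext hevφ
    rw [h2]
    exact h1

/-- choosing elements of `m + 2` of the sets -/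
theorem exists_choice {M m : ℕ} (D : Fin M → Finset ℂ)
    (h : ∀ I : Finset (Fin M), M ≤ I.card + (m + 1) → 1 ≤ (I.biUnion D).card) :
    ∃ (f : Fin (m + 2) → Fin M) (α : Fin (m + 2) → ℂ), Function.Injective f ∧
      ∀ l, α l ∈ D (f l) := by
  classical
  let Nn : Finset (Fin M) := Finset.univ.filter fun l => (D l).Nonempty
  have hN : m + 2 ≤ Nn.card := by
    by_contra hcon
    push Not at hcon
    have h1 := h Nnᶜ (by
      rw [Finset.card_compl, Fintype.card_fin]
      omega)
    obtain ⟨z, hz⟩ := Finset.card_pos.1 h1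
    obtain ⟨l, hl, hzl⟩ := Finset.mem_biUnion.1 hz
    rw [Finset.mem_compl] at hl
    exact hl (Finset.mem_filter.2 ⟨Finset.mem_univ _, ⟨z, hzl⟩⟩)
  obtain ⟨N', hN', hc⟩ := Finset.exists_subset_card_eq hN
  let f : Fin (m + 2) → Fin M := fun l => N'.orderEmbOfFin hc l
  have hf : ∀ l, (D (f l)).Nonempty := fun l =>
    (Finset.mem_filter.1 (hN' (Finset.orderEmbOfFin_mem N' hc l))).2
  choose α hα using hf
  exact ⟨f, α, (N'.orderEmbOfFin hc).injective, hα⟩

end Pool.Agent.Q170.BX
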